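import Mathlib

/-!
# A cycle of prime period three of `x_{n+1} = A / x_n ^ 2 + 1 / x_{n-k} ^ p`

For `A = 1/2`, `p = 2` and every `k ≡ 1 (mod 3)` (in particular `k = 1`) the equation has the solution
`s, 2 s, s / 2, s, 2 s, s / 2, …` with `s ^ 3 = 9 / 4`.
-/

set_option autoImplicit false

namespace Pool.Agent.Results.MP_7b4a8e_an.PeriodThree

/-- `x` is a positive solution of `x_{n+1} = A / x_n ^ 2 + 1 / x_{n-k} ^ p`, `n ≥ 0`; the term with
index `m ≥ -k` of the problem is `x (m + k)` here. -/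
def IsPositiveSolution (A p : ℝ) (k : ℕ) (x : ℕ → ℝ) : Prop :=
  (∀ m, 0 < x m) ∧ ∀ n : ℕ, x (n + k + 1) = A / x (n + k) ^ 2 + 1 / x n ^ p

/-- `N` is the prime period of `x`: the least `N ≥ 1` with `x (m + N) = x m` for all `m`. -/
def HasPrimePeriod (x : ℕ → ℝ) (N : ℕ) : Prop :=
  IsLeast {N : ℕ | 1 ≤ N ∧ ∀ m, x (m + N) = x m} N

/-- the cycle -/
noncomputable def cyc (s : ℝ) (m : ℕ) : ℝ := if m % 3 = 0 then s else if m % 3 = 1 then 2 * s else s / 2

theorem cyc_sol (s : ℝ) (hs : 0 < s) (h3 : s ^ 3 = 9 / 4) (j : ℕ) :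
    IsPositiveSolution (1 / 2) 2 (3 * j + 1) (cyc s) := by
  have hs2 : s ^ 2 ≠ 0 := by positivity
  refine ⟨fun m => ?_, fun n => ?_⟩
  · unfold cyc
    split_ifs <;> positivity
  · unfold cyc
    have h : n % 3 = 0 ∨ n % 3 = 1 ∨ n % 3 = 2 := by omega
    rcases h with h | h | h
    · have h1 : (n + (3 * j + 1) + 1) % 3 = 2 := by omega
      have h2 : (n + (3 * j + 1)) % 3 = 1 := by omega
      simp only [h, h1, h2]
      norm_num
      field_simp
      nlinarith
    · have h1 : (n + (3 * j + 1) + 1) % 3 = 0 := by omega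
      have h2 : (n + (3 * j + 1)) % 3 = 2 := by omega
      simp only [h, h1, h2]
      norm_num
      field_simp
      nlinarith
    · have h1 : (n + (3 * j + 1) + 1) % 3 = 1 := by omega
      have h2 : (n + (3 * j + 1)) % 3 = 0 := by omega
      simp only [h, h1, h2]
      norm_num
      field_simp
      nlinarith

theorem cyc_period (s : ℝ) (hs : 0 < s) : HasPrimePeriod (cyc s) 3 := by
  refine ⟨⟨by norm_num, fun m => by unfold cyc; simp⟩, ?_⟩
  rintro N ⟨hN, h⟩
  by_contra hcon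
  have h0 := h 0
  have hN3 : N = 1 ∨ N = 2 := by omega
  rcases hN3 with rfl | rfl
  · unfold cyc at h0
    norm_num at h0
    linarith
  · unfold cyc at h0
    norm_num at h0
    linarith

/-- **Cycles of prime period three.** The equation `x_{n+1} = A / x_n ^ 2 + 1 / x_{n-k} ^ p` with
`A = 1 / 2`, `p = 2` has, for every `k ≡ 1 (mod 3)`, a positive solution with prime period `3`. -/
theorem result : ∀ j : ℕ, ∃ x : ℕ → ℝ,
    IsPositiveSolution (1 / 2) 2 (3 * j + 1) x ∧ HasPrimePeriod x 3 := by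
  intro j
  obtain ⟨s, hs, h3⟩ : ∃ s : ℝ, 0 < s ∧ s ^ 3 = 9 / 4 := by
    refine ⟨(9 / 4 : ℝ) ^ ((1 : ℝ) / 3), by positivity, ?_⟩
    rw [← Real.rpow_natCast, ← Real.rpow_mul (by norm_num)]
    norm_num
  exact ⟨cyc s, cyc_sol s hs h3 j, cyc_period s hs⟩

end Pool.Agent.Results.MP_7b4a8e_an.PeriodThree
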